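import Pool.Agent.H425Z.ErgMain

set_option autoImplicit false

open MeasureTheory

namespace Pool.Agent.Results.MP_1b52a3_lc.AErgodicNoReduction

open Pool.Agent.Results.MP_1b52a3_lc.NoBorelReduction (Aut)
open Pool.Agent.Helper212.ConjBorel (FullGroup)
open Pool.Agent.H425Z.Erg (ErgAut)

/-- Let `T₀` be an ergodic automorphism of a standard atomless probability space `(X, μ)`.
There is no Borel map `f` from the ergodic elements of `Aut(X, μ)` to the full group `[T₀]` such
that `S`, `S'` are conjugate in `Aut(X, μ)` if and only if `f S`, `f S'` are conjugate in `[T₀]`. -/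
theorem result {X : Type*} [MeasurableSpace X] [StandardBorelSpace X] {μ : Measure X}
    [IsProbabilityMeasure μ] [NullSingletonClass μ] {T₀ : X ≃ᵐ X} (h : Ergodic T₀ μ) :
    ¬ ∃ f : ErgAut μ → FullGroup h, Measurable[borel (ErgAut μ), borel (FullGroup h)] f ∧
      ∀ S S' : ErgAut μ, (∃ U : Aut μ, (S' : Aut μ) = U * S * U⁻¹) ↔
        ∃ V : FullGroup h, f S' = V * f S * V⁻¹ :=
  Pool.Agent.H425Z.Erg.main h

end Pool.Agent.Results.MP_1b52a3_lc.AErgodicNoReduction
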